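import Pool.Agent.N699.AO.Main

set_option autoImplicit false

/-!
# MP_1e1427_nt: almost all odd integers

For almost all odd `n` (density one; the starting results have a positive proportion) there are many
quadruples `n = x² + y² + z² + w²` for which all prime factors of `2^(x+y) + 2^(z+w) + 1` are
larger than `B`, for all `B` up to `√n / (A (log n)²)`.

The proof. `2^(8c) + 2^(4c+1) + 1 = (2^(4c) + 1)²`, and if `2^k` divides `c` all prime factors are
`1` modulo `2^(k+3)`. So with `n = 2 ν + 1` one has to solve `ν = 20 c² + 2 c + s² + t² + t` with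
`c = 2^k a`: a ternary problem with one sparse variable. It is treated by the circle method (Weyl
differencing for the two dense variables, orthogonality over the fractions with a given denominator
for the sparse one), and the mean value over a residue class modulo `Q₀!` is bounded below by the
number of local solutions.
-/

namespace Pool.Agent.Results.MP_1e1427_nt.AlmostAllOddIntegers

/-- the quadruples of natural numbers with `n = x² + y² + z² + w²` for which all prime factors of
`2^(x+y) + 2^(z+w) + 1` are larger than `B` -/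
def quads (B : ℝ) (n : ℕ) : Set (ℕ × ℕ × ℕ × ℕ) :=
  {p | n = p.1 ^ 2 + p.2.1 ^ 2 + p.2.2.1 ^ 2 + p.2.2.2 ^ 2 ∧
    ∀ q : ℕ, q.Prime → q ∣ 2 ^ (p.1 + p.2.1) + 2 ^ (p.2.2.1 + p.2.2.2) + 1 → B < q}

theorem result : ∀ ε : ℝ, 0 < ε → ∃ δ : ℝ, 0 < δ ∧ ∃ A : ℝ, 0 < A ∧ ∃ X₀ : ℕ, ∀ X : ℕ, X₀ ≤ X →
    ∀ B : ℝ, 1 ≤ B → A * B * (Real.log X) ^ 2 ≤ √(X : ℝ) →
    (((Finset.range (X + 1)).filter
      (fun n => Odd n ∧ ((quads B n).ncard : ℝ) < δ * (√(X : ℝ) / B))).card : ℝ) ≤ ε * X :=
  Pool.Agent.N699.AO.t_FINI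

end Pool.Agent.Results.MP_1e1427_nt.AlmostAllOddIntegers
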