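import Mathlib
import Pool.Agent.N233.GM.Law2

set_option autoImplicit false

/-!
# The question in random models of the primes with a growing sieve

The question is whether every odd `n > 1` is a sum of four squares `x² + y² + z² + w²` of natural
numbers such that `2 ^ (x + y) + 2 ^ (z + w) + 1` is prime.  We answer it for all large odd `n`, with
an asymptotic formula for the number of quadruples, in random models of the primes with a growing sieve:
the integers are decided one after the other, no `m` with a prime factor at most `z(m)` is chosen, where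
`z` is ANY function with `z(m) ≤ c (log log m) ^ 2`, `c > 0` fixed and small, and the conditional
probability of choosing `m + 1` (without prime factors at most `z(m + 1)`) given the past is asymptotic to
`∏_{q ≤ z(m + 1)} (1 - 1/q)⁻¹ / log m`.  No independence and no rate is assumed.
-/

open MeasureTheory Filter
open scoped Topology

namespace Pool.Agent.Results.MP_1e1427_nt.GrowingSieveModels

/-- the quadruples of natural numbers with `n = x² + y² + z² + w²` -/
def four (n : ℕ) : Set (ℕ × ℕ × ℕ × ℕ) :=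
  {v | n = v.1 ^ 2 + v.2.1 ^ 2 + v.2.2.1 ^ 2 + v.2.2.2 ^ 2}

/-- the value `2 ^ (x + y) + 2 ^ (z + w) + 1` -/
def form (v : ℕ × ℕ × ℕ × ℕ) : ℕ := 2 ^ (v.1 + v.2.1) + 2 ^ (v.2.2.1 + v.2.2.2) + 1

/-- the number of quadruples of natural numbers with `n = x² + y² + z² + w²` for which
`2 ^ (x + y) + 2 ^ (z + w) + 1` belongs to `S` -/
noncomputable def R (S : Set ℕ) (n : ℕ) : ℕ := {v | v ∈ four n ∧ form v ∈ S}.ncard

/-- `∏_{q ≤ x} (1 - 1/q)⁻¹`, `q` prime -/
noncomputable def W (x : ℕ) : ℝ := ∏ q ∈ (Finset.Icc 1 x).filter Nat.Prime, (1 - (q : ℝ)⁻¹)⁻¹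

open Classical in
/-- the density of the model at `m`: `W (z m) / log m` if `m` has no prime factor at most `z m`, and `0`
otherwise -/
noncomputable def rho (z : ℕ → ℕ) (m : ℕ) : ℝ :=
  if ∀ q, q.Prime → q ≤ z m → ¬ q ∣ m then W (z m) / Real.log m else 0

/-- the expected number of quadruples: the sum of `rho (2 ^ (x + y) + 2 ^ (z + w) + 1)` over all quadruples
with `n = x² + y² + z² + w²` -/
noncomputable def E (z : ℕ → ℕ) (n : ℕ) : ℝ := ∑ᶠ v ∈ four n, rho z (form v)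

open Pool.Agent.R494.SPL

lemma four_eq (n : ℕ) : four n = ((quad n : Finset (ℕ × ℕ × ℕ × ℕ)) : Set (ℕ × ℕ × ℕ × ℕ)) := by
  ext v
  rw [Finset.mem_coe, mem_quad]
  rfl

lemma E_eq (z : ℕ → ℕ) (n : ℕ) : E z n = ∑ v ∈ quad n, Pool.Agent.N233.GM.rho z (val2 v) := by
  unfold E
  rw [four_eq, finsum_mem_coe_finset]
  rfl

lemma R_eq {Ω : Type} {A : ℕ → Set Ω} (ω : Ω) (n : ℕ) :
    (R {k : ℕ | ω ∈ A k} n : ℝ) = ∑ v ∈ quad n, Pool.Agent.R528.RM.In A (val2 v) ω := by
  classical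
  have h0 : {v | v ∈ four n ∧ form v ∈ {k : ℕ | ω ∈ A k}} =
      (((quad n).filter (fun v => ω ∈ A (val2 v)) : Finset (ℕ × ℕ × ℕ × ℕ)) : Set (ℕ × ℕ × ℕ × ℕ)) := by
    ext v
    rw [Set.mem_ofPred_eq, four_eq, Finset.mem_coe, Finset.mem_coe, Finset.mem_filter]
    rfl
  unfold R
  rw [h0, Set.ncard_coe_finset, Finset.card_filter]
  push_cast
  refine Finset.sum_congr rfl fun v _ => ?_
  unfold Pool.Agent.R528.RM.In
  by_cases h : ω ∈ A (val2 v)
  · simp [h]
  · simp [h]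

/-- **All large odd numbers in models with a growing sieve.**  For every `ε > 0` there is `c > 0` such
that the following holds.  Let `S n` be the event that `n` is chosen, adapted to a filtration `ℱ`.  Let
`z(n)` be natural numbers with `z(n) ≤ c (log log n) ^ 2` for all large `n`, let no `n` with a prime
factor at most `z(n)` be chosen, and let the conditional probability of `S (n + 1)` given `ℱ n`, times
`log n / ∏_{q ≤ z(n + 1)} (1 - 1/q)⁻¹`, tend to `1` along the `n` for which `n + 1` has no prime factor at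
most `z(n + 1)`, almost surely.  Let `R(n)` be the number of quadruples of natural numbers with
`n = x² + y² + z² + w²` for which `2 ^ (x + y) + 2 ^ (z + w) + 1` is chosen, and `E(n)` the expected
number.  (1) `E(n) ≥ n ^ (1/2 - ε)` for all large odd `n`.  (2) Almost surely `R(n) / E(n)` tends to `1`
as `n → ∞`, `n` odd.  (3) Almost surely `R(n) ≥ n ^ (1/2 - ε)` for all large odd `n`. -/
theorem result (ε : ℝ) (hε : 0 < ε) : ∃ c : ℝ, 0 < c ∧
    ∀ {Ω : Type} [mΩ : MeasurableSpace Ω] (μ : Measure Ω) [IsProbabilityMeasure μ]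
    (ℱ : Filtration ℕ mΩ) (S : ℕ → Set Ω) (_ : ∀ n, MeasurableSet[ℱ n] (S n)) (z : ℕ → ℕ)
    (_ : ∀ᶠ n : ℕ in atTop, (z n : ℝ) ≤ c * Real.log (Real.log n) ^ 2)
    (_ : ∀ n, (∃ q, q.Prime ∧ q ≤ z n ∧ q ∣ n) → S n = ∅)
    (_ : ∀ᵐ ω ∂μ, Tendsto (fun n : ℕ =>
      (μ[(S (n + 1)).indicator (fun _ => (1 : ℝ)) | ℱ n]) ω * Real.log n / W (z (n + 1)))
      (atTop ⊓ 𝓟 {n : ℕ | ∀ q, q.Prime → q ≤ z (n + 1) → ¬ q ∣ n + 1}) (𝓝 1)),
    (∀ᶠ n : ℕ in atTop, Odd n → (n : ℝ) ^ (1 / 2 - ε) ≤ E z n) ∧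
    (∀ᵐ ω ∂μ, Tendsto (fun n : ℕ => (R {k | ω ∈ S k} n : ℝ) / E z n) (atTop ⊓ 𝓟 {n : ℕ | Odd n}) (𝓝 1)) ∧
    (∀ᵐ ω ∂μ, ∀ᶠ n : ℕ in atTop, Odd n → (n : ℝ) ^ (1 / 2 - ε) ≤ R {k | ω ∈ S k} n) := by
  classical
  obtain ⟨c₂, hc₂, hlow₂⟩ := Pool.Agent.N233.GM.low_E2 ε hε
  obtain ⟨c₃, hc₃, hlow₃⟩ := Pool.Agent.N233.GM.low_E2 (1 / 4) (by norm_num)
  refine ⟨min c₂ c₃, lt_min hc₂ hc₃, ?_⟩
  intro Ω mΩ μ hμ ℱ S hS z hz hsieve hd
  have hcc : ∀ c' : ℝ, min c₂ c₃ ≤ c' → ∀ᶠ n : ℕ in atTop, (z n : ℝ) ≤ c' * Real.log (Real.log n) ^ 2 := by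
    intro c' hc'
    filter_upwards [hz] with n h1
    exact h1.trans (mul_le_mul_of_nonneg_right hc' (by positivity))
  have hV := Pool.Agent.N233.GM.short _ z hz
  have hE2 := hlow₂ z (hcc c₂ (min_le_left _ _))
  have hE3 := hlow₃ z (hcc c₃ (min_le_right _ _))
  have hcop : ∀ n, ¬ Pool.Agent.N233.GM.Rough z n → S n = ∅ := by
    intro n hn
    unfold Pool.Agent.N233.GM.Rough at hn
    push Not at hn
    exact hsieve n hn
  have hprof := Pool.Agent.N233.GM.profile (μ := μ) (ℱ := ℱ) (A := S) z hV hcop hd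
  have hlaw := Pool.Agent.N233.GM.law2g (μ := μ) (ℱ := ℱ) (A := S) hS z hprof hE3
  obtain ⟨m1, hm1⟩ := eventually_atTop.1 hV
  have hsum : ∀ᶠ n : ℕ in atTop, ∑ v ∈ quad n, Pool.Agent.N233.GM.rho1 z (val2 v) = E z n := by
    filter_upwards [sqrt_tendsto.eventually_ge_atTop m1] with n hn
    rw [E_eq]
    refine Finset.sum_congr rfl fun v hv => ?_
    have h1 := val2_low hv
    rw [Pool.Agent.N233.GM.rho1_eq z _ (hm1 _ (by omega))]
  have hElow : ∀ᶠ n : ℕ in atTop, Odd n → 2 * (n : ℝ) ^ (1 / 2 - ε) ≤ E z n := by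
    filter_upwards [hE2, hsum] with n h1 h2 hn
    rw [← h2]
    exact h1 hn
  have key : ∀ᵐ ω ∂μ, ∀ η : ℝ, 0 < η → ∀ᶠ n : ℕ in atTop, Odd n →
      |(R {k | ω ∈ S k} n : ℝ) - E z n| ≤ η * E z n := by
    filter_upwards [hlaw] with ω hω η hη
    filter_upwards [hω η hη, hsum] with n g1 g2 hn
    have g3 := g1 hn
    rw [g2] at g3
    rw [R_eq ω n]
    exact g3
  refine ⟨?_, ?_, ?_⟩
  · filter_upwards [hElow, eventually_ge_atTop 1] with n h1 h2 hn
    have h3 : (0 : ℝ) < (n : ℝ) ^ (1 / 2 - ε) := Real.rpow_pos_of_pos (by exact_mod_cast h2) _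
    linarith [h1 hn]
  · filter_upwards [key] with ω hω
    rw [Metric.tendsto_nhds]
    intro η hη
    rw [eventually_inf_principal]
    filter_upwards [hω (η / 2) (by positivity), hElow, eventually_ge_atTop 1] with n h1 h2 h3 hn
    have hn' : Odd n := hn
    have h4 : (0 : ℝ) < (n : ℝ) ^ (1 / 2 - ε) := Real.rpow_pos_of_pos (by exact_mod_cast h3) _
    have h5 : 0 < E z n := by linarith [h2 hn']
    rw [Real.dist_eq, show (R {k | ω ∈ S k} n : ℝ) / E z n - 1 = ((R {k | ω ∈ S k} n : ℝ) - E z n) / E z n by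
      field_simp, abs_div, abs_of_pos h5, div_lt_iff₀ h5]
    have := h1 hn'
    nlinarith
  · filter_upwards [key] with ω hω
    filter_upwards [hω (1 / 2) (by norm_num), hElow] with n h1 h2 hn
    have h3 := (abs_le.1 (h1 hn)).1
    have h4 := h2 hn
    linarith

end Pool.Agent.Results.MP_1e1427_nt.GrowingSieveModels
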